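import Mathlib

set_option autoImplicit false

open Set Topology Filter

namespace Pool.Agent.Lib.MP_eb6644_gt

/-- A well-ordered index type of order type the first uncountable ordinal. -/
theorem exists_omega1_order : ∃ (I : Type) (_ : LinearOrder I) (_ : WellFoundedLT I),
    Cardinal.mk I = Cardinal.aleph 1 ∧ ∀ i : I, (Set.Iio i).Countable := by
  refine ⟨(Cardinal.aleph 1).ord.ToType, inferInstance, inferInstance,
    Cardinal.mk_ord_toType _, fun i => ?_⟩
  have h := Cardinal.mk_Iio_toType_ord_lt i
  rw [← Cardinal.le_aleph0_iff_set_countable]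
  exact Cardinal.lt_aleph_one_iff.1 h

/-- In such an order every countable set is strictly bounded. -/
theorem exists_bound {I : Type} [LinearOrder I] (hI : Cardinal.mk I = Cardinal.aleph 1)
    (hc : ∀ i : I, (Set.Iio i).Countable) {A : Set I} (hA : A.Countable) :
    ∃ j : I, ∀ i ∈ A, i < j := by
  by_contra hcon
  push Not at hcon
  have hun : (Set.univ : Set I) ⊆ ⋃ i ∈ A, (insert i (Set.Iio i)) := by
    intro j _
    obtain ⟨i, hiA, hij⟩ := hcon j
    simp only [Set.mem_iUnion]
    refine ⟨i, hiA, ?_⟩
    rcases hij.eq_or_lt with h | h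
    · exact Or.inl h
    · exact Or.inr h
  have hcount : (Set.univ : Set I).Countable :=
    (hA.biUnion (fun i _ => (hc i).insert i)).mono hun
  have : Cardinal.mk I ≤ Cardinal.aleph0 := by
    rw [Cardinal.mk_le_aleph0_iff]
    exact Set.countable_univ_iff.1 hcount
  rw [hI] at this
  exact absurd this (not_le.2 Cardinal.aleph0_lt_aleph_one)

/-- A finite subset of a monotone union is a subset of one of the sets. -/
theorem finset_subset_of_iUnion {U : Type*} (M : ℕ → Set U) (hM : Monotone M) (F : Finset U)
    (hF : (F : Set U) ⊆ ⋃ n, M n) : ∃ n, (F : Set U) ⊆ M n := by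
  classical
  induction F using Finset.induction_on with
  | empty => exact ⟨0, by simp⟩
  | insert a F ha ih =>
    obtain ⟨n, hn⟩ := ih (fun x hx => hF (by simp at hx ⊢; exact Or.inr hx))
    obtain ⟨m, hm⟩ := Set.mem_iUnion.1 (hF (show a ∈ ((insert a F : Finset U) : Set U) by simp))
    refine ⟨max n m, ?_⟩
    intro x hx
    simp only [Finset.coe_insert, Set.mem_insert_iff, Finset.mem_coe] at hx
    rcases hx with rfl | hx
    · exact hM (le_max_right _ _) hm
    · exact hM (le_max_left _ _) (hn hx)

/-- Closedness under a finitary operation. -/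
def FinClosed {U : Type*} (w : Finset U → Set U) (M : Set U) : Prop :=
  ∀ F : Finset U, (F : Set U) ⊆ M → w F ⊆ M

theorem FinClosed.iUnion {U : Type*} {w : Finset U → Set U} {M : ℕ → Set U} (hM : Monotone M)
    (h : ∀ n, FinClosed w (M n)) : FinClosed w (⋃ n, M n) := by
  intro F hF
  obtain ⟨n, hn⟩ := finset_subset_of_iUnion M hM F hF
  exact (h n F hn).trans (Set.subset_iUnion M n)

theorem countable_finsets {U : Type*} {M : Set U} (hM : M.Countable) :
    {F : Finset U | (F : Set U) ⊆ M}.Countable := by
  have h1 := Set.countable_ofPred_finite_subset hM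
  refine (h1.preimage_of_injOn (f := fun F : Finset U => (F : Set U)) ?_).mono ?_
  · exact Finset.coe_injective.injOn
  · intro F hF
    exact ⟨F.finite_toSet, hF⟩

theorem exists_countable_closed {U : Type*} (w : Finset U → Set U) (hw : ∀ F, (w F).Countable)
    (M₀ : Set U) (h₀ : M₀.Countable) : ∃ M, M₀ ⊆ M ∧ M.Countable ∧ FinClosed w M := by
  let st : Set U → Set U := fun M => M ∪ ⋃ F ∈ {F : Finset U | (F : Set U) ⊆ M}, w F
  let M : ℕ → Set U := fun n => st^[n] M₀
  have hsucc : ∀ n, M (n + 1) = st (M n) := fun n => Function.iterate_succ_apply' _ _ _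
  have hcount : ∀ n, (M n).Countable := by
    intro n
    induction n with
    | zero => exact h₀
    | succ n ih =>
      rw [hsucc]
      exact ih.union ((countable_finsets ih).biUnion (fun F _ => hw F))
  have hmono : Monotone M := by
    refine monotone_nat_of_le_succ (fun n => ?_)
    rw [hsucc]
    exact Set.subset_union_left
  refine ⟨⋃ n, M n, Set.subset_iUnion M 0, Set.countable_iUnion hcount, ?_⟩
  intro F hF
  obtain ⟨n, hn⟩ := finset_subset_of_iUnion M hmono F hF
  refine Set.Subset.trans ?_ (Set.subset_iUnion M (n + 1))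
  rw [hsucc]
  intro x hx
  right
  simp only [Set.mem_iUnion]
  exact ⟨F, hn, hx⟩

/-- The chain of countable closed sets of length the first uncountable ordinal. -/
theorem exists_chain {U : Type*} {I : Type*} [LinearOrder I] [WellFoundedLT I]
    (hI : ∀ i : I, (Set.Iio i).Countable) (w : Finset U → Set U) (hw : ∀ F, (w F).Countable)
    (E : Set U → Set U) (hE : ∀ M : Set U, M.Countable → (E M).Countable) :
    ∃ M : I → Set U, (∀ i, (M i).Countable) ∧ (∀ i, FinClosed w (M i)) ∧
      (∀ i j, i < j → M i ⊆ M j ∧ E (M i) ⊆ M j) := by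
  classical
  let cl : Set U → Set U := fun M₀ =>
    if h : M₀.Countable then Classical.choose (exists_countable_closed w hw M₀ h) else M₀
  have hcl : ∀ M₀ : Set U, M₀.Countable → M₀ ⊆ cl M₀ ∧ (cl M₀).Countable ∧ FinClosed w (cl M₀) := by
    intro M₀ h
    have := Classical.choose_spec (exists_countable_closed w hw M₀ h)
    simp only [cl, h, dif_pos]
    exact this
  have wf : WellFounded ((· < ·) : I → I → Prop) := wellFounded_lt
  let M : I → Set U := wf.fix (fun i ih => cl (⋃ j : Set.Iio i, (ih j.1 j.2 ∪ E (ih j.1 j.2))))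
  have hM : ∀ i, M i = cl (⋃ j : Set.Iio i, (M j.1 ∪ E (M j.1))) := fun i => wf.fix_eq _ _
  have hcount : ∀ i, (M i).Countable := by
    intro i
    induction i using wf.induction with
    | _ i ih =>
      rw [hM]
      refine (hcl _ ?_).2.1
      have : Countable (Set.Iio i) := (hI i).to_subtype
      exact Set.countable_iUnion (fun j => (ih j.1 j.2).union (hE _ (ih j.1 j.2)))
  have hcu : ∀ i, (⋃ j : Set.Iio i, (M j.1 ∪ E (M j.1))).Countable := by
    intro i
    have : Countable (Set.Iio i) := (hI i).to_subtype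
    exact Set.countable_iUnion (fun j => (hcount j.1).union (hE _ (hcount j.1)))
  refine ⟨M, hcount, fun i => ?_, fun i j hij => ?_⟩
  · rw [hM]; exact (hcl _ (hcu i)).2.2
  · have h1 : (M i ∪ E (M i)) ⊆ M j := by
      rw [hM j]
      refine Set.Subset.trans ?_ (hcl _ (hcu j)).1
      exact Set.subset_iUnion (fun j' : Set.Iio j => (M j'.1 ∪ E (M j'.1))) ⟨i, hij⟩
    exact ⟨Set.subset_union_left.trans h1, Set.subset_union_right.trans h1⟩

end Pool.Agent.Lib.MP_eb6644_gt
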