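import Mathlib
import Pool.Agent.Lib.MP_eb6644_gt.Closure

set_option autoImplicit false

open Set Topology Filter

namespace Pool.Agent.Lib.MP_eb6644_gt

/-- Finite rational boxes. -/
abbrev Box (Γ : Type*) := Finset (Γ × ℚ × ℚ)

/-- The open set given by a box. -/
def bs {Γ : Type*} (B : Box Γ) : Set (Γ → ℝ) :=
  {x | ∀ t ∈ B, (t.2.1 : ℝ) < x t.1 ∧ x t.1 < (t.2.2 : ℝ)}

theorem mem_bs {Γ : Type*} {B : Box Γ} {x : Γ → ℝ} :
    x ∈ bs B ↔ ∀ t ∈ B, (t.2.1 : ℝ) < x t.1 ∧ x t.1 < (t.2.2 : ℝ) := Iff.rfl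

theorem isOpen_bs {Γ : Type*} (B : Box Γ) : IsOpen (bs B) := by
  have : bs B = ⋂ t ∈ B, {x : Γ → ℝ | (t.2.1 : ℝ) < x t.1 ∧ x t.1 < (t.2.2 : ℝ)} := by
    ext x; simp [bs]
  rw [this]
  refine isOpen_biInter_finset (fun t _ => ?_)
  exact (isOpen_lt continuous_const (continuous_apply _)).inter
    (isOpen_lt (continuous_apply _) continuous_const)

/-- Boxes form a neighbourhood basis. -/
theorem exists_box {Γ : Type*} {V : Set (Γ → ℝ)} {x : Γ → ℝ} (hV : V ∈ 𝓝 x) :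
    ∃ B : Box Γ, x ∈ bs B ∧ bs B ⊆ V := by
  classical
  rw [nhds_pi, Filter.mem_pi'] at hV
  obtain ⟨F, t, ht, htV⟩ := hV
  have hq : ∀ i, ∃ q : ℚ × ℚ, (q.1 : ℝ) < x i ∧ x i < (q.2 : ℝ) ∧
      ∀ r : ℝ, (q.1 : ℝ) < r → r < (q.2 : ℝ) → r ∈ t i := by
    intro i
    obtain ⟨l, u, hlu, hsub⟩ := mem_nhds_iff_exists_Ioo_subset.1 (ht i)
    obtain ⟨q1, h1, h1'⟩ := exists_rat_btwn hlu.1
    obtain ⟨q2, h2, h2'⟩ := exists_rat_btwn hlu.2
    refine ⟨(q1, q2), h1', h2, fun r hr1 hr2 => hsub ⟨h1.trans hr1, hr2.trans h2'⟩⟩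
  choose q hq1 hq2 hq3 using hq
  refine ⟨F.image (fun i => (i, q i)), ?_, ?_⟩
  · intro s hs
    simp only [Finset.mem_image] at hs
    obtain ⟨i, _, rfl⟩ := hs
    exact ⟨hq1 i, hq2 i⟩
  · intro z hz
    apply htV
    intro i hi
    have := hz (i, q i) (Finset.mem_image_of_mem _ hi)
    exact hq3 i _ this.1 this.2

/-- Restriction to a set of coordinates. -/
noncomputable def restr {Γ : Type*} (S : Set Γ) (x : Γ → ℝ) : Γ → ℝ := by
  classical exact fun i => if i ∈ S then x i else 0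

theorem restr_of_mem {Γ : Type*} {S : Set Γ} {x : Γ → ℝ} {i : Γ} (h : i ∈ S) :
    restr S x i = x i := by simp [restr, h]

theorem restr_of_notMem {Γ : Type*} {S : Set Γ} {x : Γ → ℝ} {i : Γ} (h : i ∉ S) :
    restr S x i = 0 := by simp [restr, h]

theorem restr_eq_self {Γ : Type*} {S : Set Γ} {x : Γ → ℝ} (h : ∀ i, i ∉ S → x i = 0) :
    restr S x = x := by
  funext i
  by_cases hi : i ∈ S
  · exact restr_of_mem hi
  · rw [restr_of_notMem hi, h i hi]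

/-- The part of `L` supported in `S`. -/
def LS {Γ : Type*} (L : Set (Γ → ℝ)) (S : Set Γ) : Set (Γ → ℝ) :=
  {x | x ∈ L ∧ ∀ i, i ∉ S → x i = 0}

theorem isCompact_LS {Γ : Type*} {L : Set (Γ → ℝ)} (hL : IsCompact L) (S : Set Γ) :
    IsCompact (LS L S) := by
  have : LS L S = L ∩ ⋂ i ∈ Sᶜ, {x : Γ → ℝ | x i = 0} := by
    ext x; simp [LS]
  rw [this]
  refine hL.inter_right (isClosed_biInter (fun i _ => ?_))
  exact isClosed_eq (continuous_apply i) continuous_const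

theorem LS_mono {Γ : Type*} {L : Set (Γ → ℝ)} {S T : Set Γ} (h : S ⊆ T) : LS L S ⊆ LS L T :=
  fun _ hx => ⟨hx.1, fun i hi => hx.2 i (fun hS => hi (h hS))⟩

variable {K : Type*} [LinearOrder K] {Γ : Type*}

/-- Admissible open sets with parameters in `P`. -/
def Adm (P : Set K) (O : Set K) : Prop :=
  O = univ ∨ (∃ c ∈ P, O = Ioi c) ∨ (∃ c ∈ P, O = Iio c) ∨ ∃ c ∈ P, ∃ d ∈ P, O = Ioo c d

/-- Good pairs: countable-elementary-submodel-like closure. -/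
structure Good (L : Set (Γ → ℝ)) (g : (Γ → ℝ) → K) (S : Set Γ) (P : Set K) : Prop where
  wit : ∀ (B : Box Γ) (O : Set K), (∀ t ∈ B, t.1 ∈ S) → Adm P O →
    (∃ x ∈ L, x ∈ bs B ∧ g x ∈ O) → ∃ z ∈ LS L S, z ∈ bs B ∧ g z ∈ O ∧ g z ∈ P
  lub : ∀ B : Box Γ, (∀ t ∈ B, t.1 ∈ S) → ∀ s, IsLUB (g '' (L ∩ bs B)) s → s ∈ P
  glb : ∀ B : Box Γ, (∀ t ∈ B, t.1 ∈ S) → ∀ s, IsGLB (g '' (L ∩ bs B)) s → s ∈ P
  succ : ∀ c ∈ P, ∀ d, (c ⋖ d ∨ d ⋖ c) → d ∈ P

/-- Endpoints added at the next stage. -/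
def Ends (L : Set (Γ → ℝ)) (g : (Γ → ℝ) → K) (S : Set Γ) : Set K :=
  {s | ∃ B : Box Γ, (∀ t ∈ B, t.1 ∈ S) ∧
    (IsLUB (g '' (LS L S ∩ bs B)) s ∨ IsGLB (g '' (LS L S ∩ bs B)) s)}

theorem Adm.dual {P : Set K} {O : Set K} (h : Adm P O) :
    Adm (K := Kᵒᵈ) (OrderDual.ofDual ⁻¹' P) (OrderDual.ofDual ⁻¹' O) := by
  rcases h with rfl | ⟨c, hc, rfl⟩ | ⟨c, hc, rfl⟩ | ⟨c, hc, d, hd, rfl⟩
  · left; rfl
  · right; right; left; exact ⟨OrderDual.toDual c, hc, by ext x; rfl⟩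
  · right; left; exact ⟨OrderDual.toDual c, hc, by ext x; rfl⟩
  · right; right; right
    refine ⟨OrderDual.toDual d, hd, OrderDual.toDual c, hc, ?_⟩
    ext x
    exact and_comm

theorem Good.dual {L : Set (Γ → ℝ)} {g : (Γ → ℝ) → K} {S : Set Γ} {P : Set K}
    (h : Good L g S P) :
    Good (K := Kᵒᵈ) L (fun x => OrderDual.toDual (g x)) S (OrderDual.ofDual ⁻¹' P) where
  wit := by
    intro B O hB hO hx
    have hO' : Adm P (OrderDual.toDual ⁻¹' O) := hO.dual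
    exact h.wit B _ hB hO' hx
  lub := by
    intro B hB s hs
    have := h.glb B hB (OrderDual.ofDual s)
    refine this ?_
    exact hs
  glb := by
    intro B hB s hs
    have := h.lub B hB (OrderDual.ofDual s)
    refine this ?_
    exact hs
  succ := by
    intro c hc d hd
    refine h.succ (OrderDual.ofDual c) hc (OrderDual.ofDual d) ?_
    rcases hd with hd | hd
    · right; exact hd.ofDual
    · left; exact hd.ofDual

end Pool.Agent.Lib.MP_eb6644_gt
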