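import Mathlib
import Pool.Agent.Lib.MP_eb6644_gt.Good

set_option autoImplicit false

open Set Topology Filter

namespace Pool.Agent.Lib.MP_eb6644_gt

variable {K : Type*} [LinearOrder K] {Γ : Type*}

/-- Key approximation lemma. -/
theorem restr_mem_closure {L : Set (Γ → ℝ)} {g : (Γ → ℝ) → K} {S : Set Γ} {P : Set K}
    (h : Good L g S P) {O : Set K} (hO : Adm P O) {x : Γ → ℝ} (hx : x ∈ L) (hgx : g x ∈ O) :
    restr S x ∈ closure {z | z ∈ LS L S ∧ g z ∈ O ∧ g z ∈ P} := by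
  classical
  rw [mem_closure_iff_nhds]
  intro V hV
  obtain ⟨B', hB', hsub⟩ := exists_box hV
  let B : Box Γ := B'.filter (fun t => t.1 ∈ S)
  have hBS : ∀ t ∈ B, t.1 ∈ S := fun t ht => (Finset.mem_filter.1 ht).2
  have hxB : x ∈ bs B := by
    intro t ht
    have ht' := Finset.mem_filter.1 ht
    have := hB' t ht'.1
    rwa [restr_of_mem ht'.2] at this
  obtain ⟨z, hz, hzB, hzO, hzP⟩ := h.wit B O hBS hO ⟨x, hx, hxB, hgx⟩
  refine ⟨z, hsub ?_, hz, hzO, hzP⟩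
  intro t ht
  by_cases hS : t.1 ∈ S
  · exact hzB t (Finset.mem_filter.2 ⟨ht, hS⟩)
  · have := hB' t ht
    rw [restr_of_notMem hS] at this
    rw [hz.2 _ hS]
    exact this

theorem closure_sub_LS [TopologicalSpace K] {L : Set (Γ → ℝ)} (hL : IsCompact L) {g : (Γ → ℝ) → K}
    {S : Set Γ} {Q : Set K} :
    closure {z | z ∈ LS L S ∧ g z ∈ Q} ⊆ LS L S :=
  closure_minimal (fun _ hz => hz.1) (isCompact_LS hL S).isClosed

theorem restr_mem_LS {L : Set (Γ → ℝ)} (hL : IsCompact L) {g : (Γ → ℝ) → K} {S : Set Γ} {P : Set K}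
    (h : Good L g S P) {x : Γ → ℝ} (hx : x ∈ L) : restr S x ∈ LS L S := by
  have h1 := restr_mem_closure h (Or.inl rfl : Adm P univ) hx (mem_univ _)
  exact closure_minimal (fun _ hz => hz.1) (isCompact_LS hL S).isClosed h1

variable [TopologicalSpace K]

theorem image_mem_closure {L : Set (Γ → ℝ)} (hL : IsCompact L) {g : (Γ → ℝ) → K}
    (hg : ContinuousOn g L) {S : Set Γ} {P : Set K}
    (h : Good L g S P) {O : Set K} (hO : Adm P O) {x : Γ → ℝ} (hx : x ∈ L) (hgx : g x ∈ O) :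
    g (restr S x) ∈ closure (P ∩ O) := by
  have h1 := restr_mem_closure h hO hx hgx
  have h2 : restr S x ∈ L := (restr_mem_LS hL h hx).1
  have h3 : ContinuousWithinAt g {z | z ∈ LS L S ∧ g z ∈ O ∧ g z ∈ P} (restr S x) :=
    (hg _ h2).mono (fun z hz => hz.1.1)
  have h4 := h3.mem_closure_image h1
  refine closure_mono ?_ h4
  rintro _ ⟨z, hz, rfl⟩
  exact ⟨hz.2.2, hz.2.1⟩

/-- A continuity box: if `g y < u` then some box around `y` keeps `g < u` on `L`. -/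
theorem exists_box_lt [OrderTopology K] {L : Set (Γ → ℝ)} {g : (Γ → ℝ) → K}
    (hg : ContinuousOn g L) {y : Γ → ℝ} (hy : y ∈ L) {u : K} (hu : g y < u) :
    ∃ B : Box Γ, y ∈ bs B ∧ ∀ z ∈ L, z ∈ bs B → g z < u := by
  have h1 : g ⁻¹' (Iio u) ∈ 𝓝[L] y := (hg y hy) (Iio_mem_nhds hu)
  rw [mem_nhdsWithin_iff_exists_mem_nhds_inter] at h1
  obtain ⟨V, hV, hsub⟩ := h1
  obtain ⟨B, hB, hBV⟩ := exists_box hV
  exact ⟨B, hB, fun z hz hzB => hsub ⟨hBV hzB, hz⟩⟩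

/-- Endpoint lemma. -/
theorem endpoint [OrderTopology K] {L : Set (Γ → ℝ)} (hL : IsCompact L) {g : (Γ → ℝ) → K}
    (hg : ContinuousOn g L) {S : Set Γ} {P : Set K} (h : Good L g S P) {y : Γ → ℝ}
    (hy : y ∈ LS L S) {b : K} (hab : g y < b) (hgap : Ioo (g y) b ∩ P = ∅) :
    g y ∈ Ends L g S := by
  classical
  obtain ⟨B', hB', hlt⟩ := exists_box_lt hg hy.1 hab
  let B : Box Γ := B'.filter (fun t => t.1 ∈ S)
  refine ⟨B, fun t ht => (Finset.mem_filter.1 ht).2, Or.inl ?_⟩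
  have hyB : y ∈ bs B := fun t ht => hB' t (Finset.mem_filter.1 ht).1
  refine IsGreatest.isLUB ⟨⟨y, ⟨hy, hyB⟩, rfl⟩, ?_⟩
  rintro _ ⟨z, ⟨hzS, hzB⟩, rfl⟩
  have hzB' : z ∈ bs B' := by
    intro t ht
    by_cases hS : t.1 ∈ S
    · exact hzB t (Finset.mem_filter.2 ⟨ht, hS⟩)
    · have := hB' t ht
      rw [hy.2 _ hS] at this
      rw [hzS.2 _ hS]
      exact this
  have h1 : g z < b := hlt z hzS.1 hzB'
  by_contra hcon
  push Not at hcon
  have h2 : g z ∈ closure P := by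
    have := image_mem_closure hL hg h (Or.inl rfl : Adm P univ) hzS.1 (mem_univ _)
    rw [restr_eq_self hzS.2, inter_univ] at this
    exact this
  rw [mem_closure_iff] at h2
  obtain ⟨c, hc1, hc2⟩ := h2 (Ioo (g y) b) isOpen_Ioo ⟨hcon, h1⟩
  have : c ∈ Ioo (g y) b ∩ P := ⟨hc1, hc2⟩
  rw [hgap] at this
  exact this

theorem Ends_dual {L : Set (Γ → ℝ)} {g : (Γ → ℝ) → K} {S : Set Γ} (s : K)
    (h : OrderDual.toDual s ∈ Ends (K := Kᵒᵈ) L (fun x => OrderDual.toDual (g x)) S) :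
    s ∈ Ends L g S := by
  obtain ⟨B, hB, h1⟩ := h
  refine ⟨B, hB, ?_⟩
  rcases h1 with h1 | h1
  · right; exact h1
  · left; exact h1

/-- One half of the two-sided case. -/
theorem two_sided_aux [OrderTopology K] (hcomp : ∀ s : Set K, s.Nonempty → ∃ a, IsLUB s a)
    {L : Set (Γ → ℝ)} (hL : IsCompact L) {g : (Γ → ℝ) → K}
    (hg : ContinuousOn g L) {S : Set Γ} {P : Set K} (h : Good L g S P) {p : K} (hp : p ∉ P)
    {x : Γ → ℝ} (hx : x ∈ L) (hgx : g x = p)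
    (hdec : ∀ c ∈ P, p < c → ∃ c' ∈ P, p < c' ∧ c' < c) :
    ¬ (g (restr S x) < p) := by
  classical
  intro hlt
  have hyS : restr S x ∈ LS L S := restr_mem_LS hL h hx
  obtain ⟨B', hB', hB'lt⟩ := exists_box_lt hg hyS.1 hlt
  let B : Box Γ := B'.filter (fun t => t.1 ∈ S)
  have hBS : ∀ t ∈ B, t.1 ∈ S := fun t ht => (Finset.mem_filter.1 ht).2
  have hxB : x ∈ bs B := by
    intro t ht
    have ht' := Finset.mem_filter.1 ht
    have := hB' t ht'.1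
    rwa [restr_of_mem ht'.2] at this
  obtain ⟨s, hs⟩ := hcomp (g '' (L ∩ bs B)) ⟨g x, x, ⟨hx, hxB⟩, rfl⟩
  have hsP : s ∈ P := h.lub B hBS s hs
  have hps : p ≤ s := hgx ▸ hs.1 ⟨x, ⟨hx, hxB⟩, rfl⟩
  have hps' : p < s := lt_of_le_of_ne hps (fun e => hp (e ▸ hsP))
  obtain ⟨c, hcP, hpc, hcs⟩ := hdec s hsP hps'
  obtain ⟨_, ⟨x', ⟨hx'L, hx'B⟩, rfl⟩, hcx'⟩ := (lt_isLUB_iff hs).1 hcs
  obtain ⟨z, hzS, hzB, hzO, _⟩ := h.wit B (Ioi c) hBS (Or.inr (Or.inl ⟨c, hcP, rfl⟩))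
    ⟨x', hx'L, hx'B, hcx'⟩
  have hzB' : z ∈ bs B' := by
    intro t ht
    by_cases hS : t.1 ∈ S
    · exact hzB t (Finset.mem_filter.2 ⟨ht, hS⟩)
    · have := hB' t ht
      rw [restr_of_notMem hS] at this
      rw [hzS.2 _ hS]
      exact this
  have h1 := hB'lt z hzS.1 hzB'
  exact absurd (h1.trans hpc) (not_lt.2 (le_of_lt hzO))

end Pool.Agent.Lib.MP_eb6644_gt
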