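import Mathlib
import Pool.Agent.Lib.MP_eb6644_gt.Main

set_option autoImplicit false

open Set Topology Filter

namespace Pool.Agent.Lib.MP_eb6644_gt

variable {K : Type*} [LinearOrder K] [TopologicalSpace K] {Γ : Type*}

theorem exists_box_open {L : Set (Γ → ℝ)} {g : (Γ → ℝ) → K}
    (hg : ContinuousOn g L) {y : Γ → ℝ} (hy : y ∈ L) {O : Set K} (hO : IsOpen O) (hu : g y ∈ O) :
    ∃ B : Box Γ, y ∈ bs B ∧ ∀ z ∈ L, z ∈ bs B → g z ∈ O := by
  have h1 : g ⁻¹' O ∈ 𝓝[L] y := (hg y hy) (hO.mem_nhds hu)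
  rw [mem_nhdsWithin_iff_exists_mem_nhds_inter] at h1
  obtain ⟨V, hV, hsub⟩ := h1
  obtain ⟨B, hB, hBV⟩ := exists_box hV
  exact ⟨B, hB, fun z hz hzB => hsub ⟨hBV hzB, hz⟩⟩

/-- The left end of a nontrivial cut is in the next set of the chain. -/
theorem left_end_mem [OrderTopology K] {L : Set (Γ → ℝ)} (hL : IsCompact L) {g : (Γ → ℝ) → K}
    (hg : ContinuousOn g L) (hsurj : ∀ q : K, ∃ x ∈ L, g x = q)
    {S : Set Γ} {P : Set K} (h : Good L g S P) {p : K} (hp : p ∉ P)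
    (hne : (P ∩ Iio p).Nonempty) {a b : K} (ha : IsLUB (P ∩ Iio p) a) (hb : IsGLB (P ∩ Ioi p) b)
    (hab : a < b) : a ∈ P ∨ a ∈ Ends L g S := by
  classical
  by_cases haP : a ∈ P
  · exact Or.inl haP
  right
  have hclosed : IsClosed (g '' LS L S) :=
    ((isCompact_LS hL S).image_of_continuousOn (hg.mono (fun _ hz => hz.1))).isClosed
  have hnext : ∀ l, l < a → ∃ c ∈ P, l < c ∧ c < a := by
    intro l hl
    obtain ⟨c, ⟨hcP, hcp⟩, hlc⟩ := (lt_isLUB_iff ha).1 hl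
    exact ⟨c, hcP, hlc, lt_of_le_of_ne (ha.1 ⟨hcP, hcp⟩) (fun e => haP (e ▸ hcP))⟩
  have hmem : a ∈ closure (g '' LS L S) := by
    rw [mem_closure_iff_nhds]
    intro U hU
    obtain ⟨c0, hc0P, hc0⟩ := hne
    have hc0a : c0 < a := lt_of_le_of_ne (ha.1 ⟨hc0P, hc0⟩) (fun e => haP (e ▸ hc0P))
    obtain ⟨l, hla, hlU⟩ := exists_Ioc_subset_of_mem_nhds hU ⟨c0, hc0a⟩
    obtain ⟨c1, hc1P, hlc1, hc1a⟩ := hnext l hla
    obtain ⟨c2, hc2P, hc12, hc2a⟩ := hnext c1 hc1a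
    obtain ⟨c3, hc3P, hc23, hc3a⟩ := hnext c2 hc2a
    obtain ⟨x, hxL, hxc⟩ := hsurj c2
    obtain ⟨z, hzS, _, hzO, _⟩ := h.wit ∅ (Ioo c1 c3) (by simp)
      (Or.inr (Or.inr (Or.inr ⟨c1, hc1P, c3, hc3P, rfl⟩)))
      ⟨x, hxL, (by intro t ht; simp at ht), by rw [hxc]; exact ⟨hc12, hc23⟩⟩
    exact ⟨g z, hlU ⟨hlc1.trans hzO.1, (hzO.2.trans hc3a).le⟩, z, hzS, rfl⟩
  rw [hclosed.closure_eq] at hmem
  obtain ⟨y, hyS, rfl⟩ := hmem
  refine endpoint hL hg h hyS hab ?_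
  ext c
  simp only [mem_inter_iff, mem_Ioo, mem_empty_iff_false, iff_false, not_and, and_imp]
  intro hac hcb hcP
  rcases lt_trichotomy c p with hcp | rfl | hcp
  · exact absurd (ha.1 ⟨hcP, hcp⟩) (not_le.2 hac)
  · exact hp hcP
  · exact absurd (hb.1 ⟨hcP, hcp⟩) (not_le.2 hcb)

/-- The case where the left approximations are eventually constant. -/
theorem one_sided_case [OrderTopology K] {I : Type} [LinearOrder I]
    (hbd : ∀ A : Set I, A.Countable → ∃ j, ∀ i ∈ A, i < j)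
    (hcomp : ∀ s : Set K, s.Nonempty → ∃ b, IsGLB s b)
    {L : Set (Γ → ℝ)} (hL : IsCompact L) {g : (Γ → ℝ) → K}
    (hg : ContinuousOn g L) (hsurj : ∀ q : K, ∃ x ∈ L, g x = q)
    (hd : L ⊆ closure (L ∩ {x | (Function.support x).Countable}))
    {S : I → Set Γ} {P : I → Set K} (hgood : ∀ i, Good L g (S i) (P i))
    (hmono : ∀ i j, i < j → S i ⊆ S j ∧ P i ⊆ P j ∧ Ends L g (S i) ⊆ P j)
    {p : K} (hp : ∀ i, p ∉ P i) (hnea : ∀ i, (P i ∩ Iio p).Nonempty)
    (hneb : ∀ i, (P i ∩ Ioi p).Nonempty)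
    {a b : I → K} (ha : ∀ i, IsLUB (P i ∩ Iio p) (a i)) (hb : ∀ i, IsGLB (P i ∩ Ioi p) (b i))
    (hab : ∀ i, a i < b i) {i₀ : I} (hconst : ∀ j, i₀ < j → a j = a i₀) : False := by
  classical
  -- monotonicity in weak form
  have hSm : ∀ i j, i ≤ j → S i ⊆ S j := by
    intro i j hij
    rcases hij.eq_or_lt with rfl | h
    · exact Subset.rfl
    · exact (hmono i j h).1
  have hPm : ∀ i j, i ≤ j → P i ⊆ P j := by
    intro i j hij
    rcases hij.eq_or_lt with rfl | h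
    · exact Subset.rfl
    · exact (hmono i j h).2.1
  set A := a i₀ with hA
  -- A is in all later P
  have hAP : ∀ j, i₀ < j → A ∈ P j := by
    intro j hj
    rcases left_end_mem hL hg hsurj (hgood i₀) (hp i₀) (hnea i₀) (ha i₀) (hb i₀) (hab i₀) with h | h
    · exact hPm i₀ j hj.le h
    · exact (hmono i₀ j hj).2.2 h
  obtain ⟨j₁, hj₁⟩ := hbd {i₀} (Set.countable_singleton _)
  have hj₁ : i₀ < j₁ := hj₁ i₀ rfl
  have hAj₁ : A ∈ P j₁ := hAP j₁ hj₁
  have hAp : A < p := by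
    have h1 : A ≤ p := (ha i₀).2 (fun c hc => le_of_lt hc.2)
    exact lt_of_le_of_ne h1 (fun e => hp j₁ (e ▸ hAj₁))
  -- the right end
  obtain ⟨c0, hc0P, hc0⟩ := hneb i₀
  obtain ⟨b', hb'⟩ := hcomp ((⋃ i, P i) ∩ Ioi p) ⟨c0, Set.mem_iUnion.2 ⟨i₀, hc0P⟩, hc0⟩
  have hpb : p ≤ b' := hb'.2 (fun c hc => le_of_lt hc.2)
  have hAb : A < b' := hAp.trans_le hpb
  -- no point of any P i strictly between A and b'
  have hgap : ∀ i, ∀ c ∈ P i, ¬ (A < c ∧ c < b') := by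
    rintro i c hc ⟨h1, h2⟩
    have hc' : c ∈ P (max i j₁) := hPm _ _ (le_max_left _ _) hc
    have hlt : i₀ < max i j₁ := lt_of_lt_of_le hj₁ (le_max_right _ _)
    rcases lt_trichotomy c p with hcp | rfl | hcp
    · have := (ha (max i j₁)).1 ⟨hc', hcp⟩
      rw [hconst _ hlt] at this
      exact absurd this (not_le.2 h1)
    · exact hp _ hc
    · exact absurd (hb'.1 ⟨Set.mem_iUnion.2 ⟨i, hc⟩, hcp⟩) (not_le.2 h2)
  have hb'P : ∀ i, b' ∉ P i := by
    intro i hi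
    have hne : b' ≠ p := fun e => hp i (e ▸ hi)
    have hpb' : p < b' := lt_of_le_of_ne hpb hne.symm
    let j := max i j₁
    have hj : i₀ < j := lt_of_lt_of_le hj₁ (le_max_right _ _)
    obtain ⟨x, hxL, hxp⟩ := hsurj p
    obtain ⟨z, _, _, hzO, hzP⟩ := (hgood j).wit ∅ (Ioo A b') (by simp)
      (Or.inr (Or.inr (Or.inr ⟨A, hAP j hj, b', hPm _ _ (le_max_left _ _) hi, rfl⟩)))
      ⟨x, hxL, (by intro t ht; simp at ht), by rw [hxp]; exact ⟨hAp, hpb'⟩⟩
    exact hgap j _ hzP hzO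
  -- the gap is nonempty
  have hgne : (Ioo A b').Nonempty := by
    by_contra hcon
    rw [Set.not_nonempty_iff_eq_empty] at hcon
    have hpb' : p = b' := by
      by_contra hne
      have : p ∈ Ioo A b' := ⟨hAp, lt_of_le_of_ne hpb hne⟩
      rw [hcon] at this
      exact this
    have hcov : A ⋖ p := by
      refine ⟨hAp, fun c h1 h2 => ?_⟩
      have : c ∈ Ioo A b' := ⟨h1, hpb' ▸ h2⟩
      rw [hcon] at this
      exact this
    exact hp j₁ ((hgood j₁).succ A hAj₁ p (Or.inl hcov))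
  -- a point of the Sigma-part mapped into the gap
  obtain ⟨q, hq⟩ := hgne
  obtain ⟨x₀, hx₀L, hx₀⟩ := hsurj q
  obtain ⟨B, hB, hBO⟩ := exists_box_open hg hx₀L isOpen_Ioo (show g x₀ ∈ Ioo A b' by rw [hx₀]; exact hq)
  obtain ⟨x, hxB, hxL, hxs⟩ := mem_closure_iff.1 (hd hx₀L) (bs B) (isOpen_bs B) hB
  have hgx : g x ∈ Ioo A b' := hBO x hxL hxB
  -- reflect the countable support
  have hxs' : (Function.support x).Countable := hxs
  let idx : Γ → I := fun i => if h : ∃ k, i ∈ S k then Classical.choose h else j₁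
  obtain ⟨η, hη⟩ := hbd (insert j₁ (idx '' (Function.support x))) ((hxs'.image idx).insert _)
  have hjη : j₁ < η := hη j₁ (Set.mem_insert _ _)
  have hrefl : ∀ i, x i ≠ 0 → ∀ k, i ∈ S k → i ∈ S η := by
    intro i hi k hk
    have hex : ∃ k, i ∈ S k := ⟨k, hk⟩
    have h1 : i ∈ S (idx i) := by
      simp only [idx, hex, dif_pos]
      exact Classical.choose_spec hex
    exact hSm _ _ (hη (idx i) (Set.mem_insert_of_mem _ ⟨i, hi, rfl⟩)).le h1
  have hry : ∀ ξ, η ≤ ξ → restr (S ξ) x = restr (S η) x := by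
    intro ξ hξ
    funext i
    by_cases h1 : i ∈ S η
    · rw [restr_of_mem h1, restr_of_mem (hSm _ _ hξ h1)]
    · rw [restr_of_notMem h1]
      by_cases h2 : i ∈ S ξ
      · rw [restr_of_mem h2]
        by_contra h3
        exact h1 (hrefl i h3 ξ h2)
      · rw [restr_of_notMem h2]
  have hAη : A ∈ P η := hAP η (hj₁.trans hjη)
  have h1 : b' ≤ g (restr (S η) x) := by
    have := image_mem_closure hL hg (hgood η) (Or.inr (Or.inl ⟨A, hAη, rfl⟩) : Adm (P η) (Ioi A)) hxL hgx.1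
    have hsub : P η ∩ Ioi A ⊆ Ici b' := by
      rintro c ⟨hcP, hc⟩
      by_contra hcb
      exact hgap η c hcP ⟨hc, not_le.1 hcb⟩
    exact closure_minimal hsub isClosed_Ici this
  have h2 : g (restr (S η) x) ≤ b' := by
    refine hb'.2 ?_
    rintro c ⟨hc, hcp⟩
    obtain ⟨i, hi⟩ := Set.mem_iUnion.1 hc
    let ξ := max i η
    have hcξ : c ∈ P ξ := hPm _ _ (le_max_left _ _) hi
    have hbc : b' ≤ c := hb'.1 ⟨hc, hcp⟩
    have := image_mem_closure hL hg (hgood ξ) (Or.inr (Or.inr (Or.inl ⟨c, hcξ, rfl⟩)) : Adm (P ξ) (Iio c))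
      hxL (hgx.2.trans_le hbc)
    rw [hry ξ (le_max_right _ _)] at this
    exact closure_minimal (fun d hd => le_of_lt hd.2) isClosed_Iic this
  have h3 : g (restr (S η) x) = b' := le_antisymm h2 h1
  -- the dual endpoint lemma
  have h4 : b' ∈ Ends L g (S η) := by
    apply Ends_dual
    have hy : restr (S η) x ∈ LS L (S η) := restr_mem_LS hL (hgood η) hxL
    have := endpoint (K := Kᵒᵈ) (b := OrderDual.toDual A) hL
      (g := fun x => OrderDual.toDual (g x)) hg (hgood η).dual hy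
      (by
        change A < g (restr (S η) x)
        rw [h3]; exact hAb)
      (by
        ext c
        simp only [mem_inter_iff, mem_Ioo, mem_empty_iff_false, iff_false, not_and, and_imp]
        intro hc1 hc2 hcP
        have hc1' : OrderDual.ofDual c < g (restr (S η) x) := hc1
        rw [h3] at hc1'
        exact hgap η (OrderDual.ofDual c) hcP ⟨hc2, hc1'⟩)
    rw [h3] at this
    exact this
  obtain ⟨η', hη'⟩ := hbd {η} (Set.countable_singleton _)
  exact hb'P η' ((hmono η η' (hη' η rfl)).2.2 h4)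

end Pool.Agent.Lib.MP_eb6644_gt
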