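import Mathlib
import Pool.Agent.Lib.MP_eb6644_gt.Cases

set_option autoImplicit false

open Set Topology Filter

namespace Pool.Agent.Lib.MP_eb6644_gt

section basics

variable {K : Type*} [LinearOrder K] [TopologicalSpace K] [OrderTopology K]

/-- A point that is a two-sided limit of a countable set has a countable neighbourhood base. -/
theorem countably_generated_of_limits {P : Set K} (hP : P.Countable) {p : K}
    (ha : IsLUB (P ∩ Iio p) p) (hb : IsGLB (P ∩ Ioi p) p) : (𝓝 p).IsCountablyGenerated := by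
  rw [nhds_eq_order]
  have h1 : (⨅ b ∈ Iio p, 𝓟 (Ioi b)) = ⨅ b : (P ∩ Iio p : Set K), 𝓟 (Ioi (b : K)) := by
    apply le_antisymm
    · refine le_iInf (fun b => ?_)
      exact iInf₂_le (b : K) b.2.2
    · refine le_iInf₂ (fun b hb => ?_)
      obtain ⟨c, hc, hbc⟩ := (lt_isLUB_iff ha).1 hb
      refine (iInf_le _ (⟨c, hc⟩ : (P ∩ Iio p : Set K))).trans ?_
      exact principal_mono.2 (Ioi_subset_Ioi hbc.le)
  have h2 : (⨅ b ∈ Ioi p, 𝓟 (Iio b)) = ⨅ b : (P ∩ Ioi p : Set K), 𝓟 (Iio (b : K)) := by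
    apply le_antisymm
    · refine le_iInf (fun b => ?_)
      exact iInf₂_le (b : K) b.2.2
    · refine le_iInf₂ (fun b hb' => ?_)
      obtain ⟨c, hc, hbc⟩ := (isGLB_lt_iff hb).1 hb'
      refine (iInf_le _ (⟨c, hc⟩ : (P ∩ Ioi p : Set K))).trans ?_
      exact principal_mono.2 (Iio_subset_Iio hbc.le)
  rw [h1, h2]
  have c1 : Countable (P ∩ Iio p : Set K) := (hP.mono inter_subset_left).to_subtype
  have c2 : Countable (P ∩ Ioi p : Set K) := (hP.mono inter_subset_left).to_subtype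
  infer_instance

theorem exists_isLUB_of_compact [CompactSpace K] {s : Set K} (hs : s.Nonempty) :
    ∃ a, IsLUB s a := by
  obtain ⟨a, _, ha⟩ := (isClosed_closure (s := s)).isCompact.exists_isLUB hs.closure
  exact ⟨a, by unfold IsLUB at ha ⊢; rwa [upperBounds_closure] at ha⟩

theorem exists_isGLB_of_compact [CompactSpace K] {s : Set K} (hs : s.Nonempty) :
    ∃ a, IsGLB s a := by
  obtain ⟨a, _, ha⟩ := (isClosed_closure (s := s)).isCompact.exists_isGLB hs.closure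
  exact ⟨a, by unfold IsGLB at ha ⊢; rwa [lowerBounds_closure] at ha⟩

end basics

section twosided

variable {K : Type*} [LinearOrder K] [TopologicalSpace K] [OrderTopology K] [CompactSpace K]
  {Γ : Type*}

theorem Good.iUnion_nat {L : Set (Γ → ℝ)} {g : (Γ → ℝ) → K} {S : ℕ → Set Γ} {P : ℕ → Set K}
    (hS : Monotone S) (hP : Monotone P) (h : ∀ n, Good L g (S n) (P n)) :
    Good L g (⋃ n, S n) (⋃ n, P n) := by
  classical
  have hbox : ∀ B : Box Γ, (∀ t ∈ B, t.1 ∈ ⋃ n, S n) → ∃ n, ∀ t ∈ B, t.1 ∈ S n := by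
    intro B hB
    obtain ⟨n, hn⟩ := finset_subset_of_iUnion S hS (B.image (fun t => t.1)) (by
      intro i hi
      simp only [Finset.coe_image, Set.mem_image, Finset.mem_coe] at hi
      obtain ⟨t, ht, rfl⟩ := hi
      exact hB t ht)
    exact ⟨n, fun t ht => hn (by
      simp only [Finset.coe_image, Set.mem_image, Finset.mem_coe]
      exact ⟨t, ht, rfl⟩)⟩
  have hSsub : ∀ n, S n ⊆ ⋃ n, S n := fun n => Set.subset_iUnion S n
  have hPsub : ∀ n, P n ⊆ ⋃ n, P n := fun n => Set.subset_iUnion P n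
  constructor
  · intro B O hB hO hx
    obtain ⟨n, hn⟩ := hbox B hB
    have hO' : ∃ m, n ≤ m ∧ Adm (P m) O := by
      rcases hO with rfl | ⟨c, hc, rfl⟩ | ⟨c, hc, rfl⟩ | ⟨c, hc, d, hd, rfl⟩
      · exact ⟨n, le_rfl, Or.inl rfl⟩
      · obtain ⟨k, hk⟩ := Set.mem_iUnion.1 hc
        exact ⟨max n k, le_max_left _ _, Or.inr (Or.inl ⟨c, hP (le_max_right _ _) hk, rfl⟩)⟩
      · obtain ⟨k, hk⟩ := Set.mem_iUnion.1 hc
        exact ⟨max n k, le_max_left _ _, Or.inr (Or.inr (Or.inl ⟨c, hP (le_max_right _ _) hk, rfl⟩))⟩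
      · obtain ⟨k, hk⟩ := Set.mem_iUnion.1 hc
        obtain ⟨k', hk'⟩ := Set.mem_iUnion.1 hd
        refine ⟨max n (max k k'), le_max_left _ _, Or.inr (Or.inr (Or.inr ⟨c, ?_, d, ?_, rfl⟩))⟩
        · exact hP ((le_max_left _ _).trans (le_max_right _ _)) hk
        · exact hP ((le_max_right _ _).trans (le_max_right _ _)) hk'
    obtain ⟨m, hnm, hm⟩ := hO'
    obtain ⟨z, hz, hzB, hzO, hzP⟩ := (h m).wit B O (fun t ht => hS hnm (hn t ht)) hm hx
    exact ⟨z, LS_mono (hSsub m) hz, hzB, hzO, hPsub m hzP⟩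
  · intro B hB s hs
    obtain ⟨n, hn⟩ := hbox B hB
    exact hPsub n ((h n).lub B hn s hs)
  · intro B hB s hs
    obtain ⟨n, hn⟩ := hbox B hB
    exact hPsub n ((h n).glb B hn s hs)
  · intro c hc d hd
    obtain ⟨k, hk⟩ := Set.mem_iUnion.1 hc
    exact hPsub k ((h k).succ c hk d hd)

theorem two_sided_case {I : Type} [LinearOrder I]
    (hbd : ∀ A : Set I, A.Countable → ∃ j, ∀ i ∈ A, i < j)
    {L : Set (Γ → ℝ)} (hL : IsCompact L) {g : (Γ → ℝ) → K}
    (hg : ContinuousOn g L) (hsurj : ∀ q : K, ∃ x ∈ L, g x = q)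
    {S : I → Set Γ} {P : I → Set K} (hgood : ∀ i, Good L g (S i) (P i))
    (hSm : ∀ i j, i ≤ j → S i ⊆ S j) (hPm : ∀ i j, i ≤ j → P i ⊆ P j)
    {p : K} (hp : ∀ i, p ∉ P i)
    {a b : I → K} (ha : ∀ i, IsLUB (P i ∩ Iio p) (a i)) (hb : ∀ i, IsGLB (P i ∩ Ioi p) (b i))
    (hA : ∀ i, ∃ j, i < j ∧ a j ≠ a i) (hB : ∀ i, ∃ j, i < j ∧ b j ≠ b i) (i₀ : I) : False := by
  classical
  have hamono : ∀ i j, i ≤ j → a i ≤ a j := by
    intro i j hij
    exact (ha i).2 (fun c hc => (ha j).1 ⟨hPm i j hij hc.1, hc.2⟩)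
  have hbmono : ∀ i j, i ≤ j → b j ≤ b i := by
    intro i j hij
    exact (hb i).2 (fun c hc => (hb j).1 ⟨hPm i j hij hc.1, hc.2⟩)
  have hap : ∀ i, a i ≤ p := fun i => (ha i).2 (fun c hc => le_of_lt hc.2)
  have hbp : ∀ i, p ≤ b i := fun i => (hb i).2 (fun c hc => le_of_lt hc.2)
  have hstep : ∀ i, ∃ j, i < j ∧ a i < a j ∧ b j < b i := by
    intro i
    obtain ⟨j, hij, hj⟩ := hA i
    obtain ⟨k, hik, hk⟩ := hB i
    refine ⟨max j k, hij.trans_le (le_max_left _ _), ?_, ?_⟩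
    · exact lt_of_lt_of_le (lt_of_le_of_ne (hamono i j hij.le) hj.symm) (hamono _ _ (le_max_left _ _))
    · exact lt_of_le_of_lt (hbmono _ _ (le_max_right _ _)) (lt_of_le_of_ne (hbmono i k hik.le) hk)
  choose nx hnx1 hnx2 hnx3 using hstep
  let δ : ℕ → I := fun n => nx^[n] i₀
  have hδ : ∀ n, δ (n + 1) = nx (δ n) := fun n => Function.iterate_succ_apply' _ _ _
  have hδm : Monotone δ := monotone_nat_of_le_succ (fun n => by rw [hδ]; exact (hnx1 _).le)
  have hG : Good L g (⋃ n, S (δ n)) (⋃ n, P (δ n)) :=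
    Good.iUnion_nat (fun m n hmn => hSm _ _ (hδm hmn)) (fun m n hmn => hPm _ _ (hδm hmn))
      (fun n => hgood (δ n))
  set S' := ⋃ n, S (δ n) with hS'
  set P' := ⋃ n, P (δ n) with hP'
  have hpP' : p ∉ P' := by
    intro h
    obtain ⟨n, hn⟩ := Set.mem_iUnion.1 h
    exact hp _ hn
  obtain ⟨k, hk⟩ := hbd (Set.range δ) (Set.countable_range δ)
  have hak : a k < p := lt_of_lt_of_le (hnx2 k) (hap _)
  have hbk : p < b k := lt_of_le_of_lt (hbp _) (hnx3 k)
  obtain ⟨x, hxL, hgx⟩ := hsurj p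
  have hcl : g (restr S' x) ∈ closure P' := by
    have := image_mem_closure hL hg hG (Or.inl rfl : Adm P' univ) hxL (mem_univ _)
    rwa [inter_univ] at this
  have hne : g (restr S' x) ≠ p := by
    intro e
    rw [e] at hcl
    obtain ⟨c, hc1, hc2⟩ := mem_closure_iff.1 hcl (Ioo (a k) (b k)) isOpen_Ioo ⟨hak, hbk⟩
    obtain ⟨n, hn⟩ := Set.mem_iUnion.1 hc2
    have hck : c ∈ P k := hPm _ _ (hk (δ n) ⟨n, rfl⟩).le hn
    rcases lt_trichotomy c p with h | rfl | h
    · exact absurd ((ha k).1 ⟨hck, h⟩) (not_le.2 hc1.1)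
    · exact hpP' hc2
    · exact absurd ((hb k).1 ⟨hck, h⟩) (not_le.2 hc1.2)
  rcases lt_or_gt_of_ne hne with hlt | hgt
  · refine two_sided_aux (fun s hs => exists_isLUB_of_compact hs) hL hg hG hpP' hxL hgx ?_ hlt
    intro c hc hpc
    obtain ⟨n, hn⟩ := Set.mem_iUnion.1 hc
    have h1 : b (δ n) ≤ c := (hb (δ n)).1 ⟨hn, hpc⟩
    have h2 : b (δ (n + 1)) < c := by rw [hδ]; exact lt_of_lt_of_le (hnx3 _) h1
    obtain ⟨c', hc', hlt'⟩ := (isGLB_lt_iff (hb (δ (n + 1)))).1 h2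
    exact ⟨c', Set.mem_iUnion.2 ⟨n + 1, hc'.1⟩, hc'.2, hlt'⟩
  · refine two_sided_aux (K := Kᵒᵈ) (g := fun x => OrderDual.toDual (g x)) (p := OrderDual.toDual p)
      (fun s hs => exists_isGLB_of_compact (K := K) (s := OrderDual.toDual ⁻¹' s) hs)
      hL hg hG.dual hpP' hxL hgx ?_ hgt
    intro c hc hpc
    obtain ⟨n, hn⟩ := Set.mem_iUnion.1 hc
    have h1 : OrderDual.ofDual c ≤ a (δ n) := (ha (δ n)).1 ⟨hn, hpc⟩
    have h2 : OrderDual.ofDual c < a (δ (n + 1)) := by rw [hδ]; exact lt_of_le_of_lt h1 (hnx2 _)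
    obtain ⟨c', hc', hlt'⟩ := (lt_isLUB_iff (ha (δ (n + 1)))).1 h2
    exact ⟨OrderDual.toDual c', Set.mem_iUnion.2 ⟨n + 1, hc'.1⟩, hc'.2, hlt'⟩

end twosided

section witnesses

variable {K : Type*} [LinearOrder K] [TopologicalSpace K] [OrderTopology K] [CompactSpace K]
  {Γ : Type*}

theorem countable_boxes {S : Set Γ} (hS : S.Countable) :
    {B : Box Γ | ∀ t ∈ B, t.1 ∈ S}.Countable := by
  have h1 : {t : Γ × ℚ × ℚ | t.1 ∈ S}.Countable := by
    have : {t : Γ × ℚ × ℚ | t.1 ∈ S} = S ×ˢ (univ : Set (ℚ × ℚ)) := by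
      ext t; simp
    rw [this]
    exact hS.prod (Set.countable_univ)
  exact (countable_finsets h1).mono (fun B hB t ht => hB t ht)

theorem countable_Ends (L : Set (Γ → ℝ)) (g : (Γ → ℝ) → K) {S : Set Γ} (hS : S.Countable) :
    (Ends L g S).Countable := by
  have h1 : Ends L g S ⊆ ⋃ B ∈ {B : Box Γ | ∀ t ∈ B, t.1 ∈ S},
      ({s | IsLUB (g '' (LS L S ∩ bs B)) s} ∪ {s | IsGLB (g '' (LS L S ∩ bs B)) s}) := by
    rintro s ⟨B, hB, h⟩
    simp only [Set.mem_iUnion]
    exact ⟨B, hB, h⟩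
  refine Set.Countable.mono h1 ((countable_boxes hS).biUnion (fun B _ => ?_))
  refine Set.Countable.union ?_ ?_
  · exact (Set.Subsingleton.countable (fun s hs t ht => IsLUB.unique hs ht))
  · exact (Set.Subsingleton.countable (fun s hs t ht => IsGLB.unique hs ht))

/-- The chosen witness set. -/
noncomputable def witSet (L : Set (Γ → ℝ)) (g : (Γ → ℝ) → K) (B : Box Γ) (O : Set K) :
    Set (Γ ⊕ K) := by
  classical
  exact if h : ∃ z ∈ L ∩ {x | (Function.support x).Countable}, z ∈ bs B ∧ g z ∈ O then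
    (Sum.inl '' Function.support (Classical.choose h)) ∪ {Sum.inr (g (Classical.choose h))}
  else ∅

theorem witSet_countable (L : Set (Γ → ℝ)) (g : (Γ → ℝ) → K) (B : Box Γ) (O : Set K) :
    (witSet L g B O).Countable := by
  classical
  unfold witSet
  split_ifs with h
  · have := (Classical.choose_spec h).1.2
    exact (Set.Countable.image this _).union (Set.countable_singleton _)
  · exact Set.countable_empty

theorem witSet_spec {L : Set (Γ → ℝ)} {g : (Γ → ℝ) → K} {B : Box Γ} {O : Set K}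
    (h : ∃ z ∈ L ∩ {x | (Function.support x).Countable}, z ∈ bs B ∧ g z ∈ O)
    {M : Set (Γ ⊕ K)} (hM : witSet L g B O ⊆ M) :
    ∃ z ∈ LS L {i | Sum.inl i ∈ M}, z ∈ bs B ∧ g z ∈ O ∧ (Sum.inr (g z) : Γ ⊕ K) ∈ M := by
  classical
  unfold witSet at hM
  rw [dif_pos h] at hM
  have hs := Classical.choose_spec h
  refine ⟨Classical.choose h, ⟨hs.1.1, fun i hi => ?_⟩, hs.2.1, hs.2.2, hM (Or.inr rfl)⟩
  by_contra hne
  exact hi (hM (Or.inl ⟨i, hne, rfl⟩))

/-- Admissible sets of a finite set of parameters. -/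
def admF (F : Finset (Γ ⊕ K)) : Set (Set K) := {O | Adm {c : K | (Sum.inr c : Γ ⊕ K) ∈ F} O}

theorem countable_admF (F : Finset (Γ ⊕ K)) : (admF F).Countable := by
  have hfin : {c : K | (Sum.inr c : Γ ⊕ K) ∈ F}.Finite := by
    have : {c : K | (Sum.inr c : Γ ⊕ K) ∈ F} = Sum.inr ⁻¹' (F : Set (Γ ⊕ K)) := by ext; simp
    rw [this]
    exact F.finite_toSet.preimage Sum.inr_injective.injOn
  have hc := hfin.countable
  set Q := {c : K | (Sum.inr c : Γ ⊕ K) ∈ F}
  have : admF F ⊆ ({univ} ∪ ((fun c => Ioi c) '' Q)) ∪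
      (((fun c => Iio c) '' Q) ∪ ((fun c : K × K => Ioo c.1 c.2) '' (Q ×ˢ Q))) := by
    intro O hO
    rcases hO with rfl | ⟨c, hc, rfl⟩ | ⟨c, hc, rfl⟩ | ⟨c, hc, d, hd, rfl⟩
    · left; left; rfl
    · left; right; exact ⟨c, hc, rfl⟩
    · right; left; exact ⟨c, hc, rfl⟩
    · right; right; exact ⟨(c, d), ⟨hc, hd⟩, rfl⟩
  refine Set.Countable.mono this ?_
  exact ((Set.countable_singleton _).union (hc.image _)).union ((hc.image _).union
    ((hc.prod hc).image _))

/-- The finitary witness operation. -/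
noncomputable def wOp (L : Set (Γ → ℝ)) (g : (Γ → ℝ) → K) (F : Finset (Γ ⊕ K)) : Set (Γ ⊕ K) :=
  (⋃ B ∈ {B : Box Γ | ∀ t ∈ B, t.1 ∈ {i : Γ | (Sum.inl i : Γ ⊕ K) ∈ F}},
    ((⋃ O ∈ admF F, witSet L g B O) ∪
      Sum.inr '' ({s | IsLUB (g '' (L ∩ bs B)) s} ∪ {s | IsGLB (g '' (L ∩ bs B)) s}))) ∪
  ⋃ c ∈ {c : K | (Sum.inr c : Γ ⊕ K) ∈ F}, Sum.inr '' ({d | c ⋖ d} ∪ {d | d ⋖ c})

theorem covBy_subsingleton (c : K) : {d | c ⋖ d}.Subsingleton := by
  intro d hd e he
  rcases lt_trichotomy d e with h | h | h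
  · exact absurd h (he.2 hd.1)
  · exact h
  · exact absurd h (hd.2 he.1)

theorem covBy_subsingleton' (c : K) : {d | d ⋖ c}.Subsingleton := by
  intro d hd e he
  rcases lt_trichotomy d e with h | h | h
  · exact absurd he.1 (hd.2 h)
  · exact h
  · exact absurd hd.1 (he.2 h)

theorem wOp_countable (L : Set (Γ → ℝ)) (g : (Γ → ℝ) → K) (F : Finset (Γ ⊕ K)) :
    (wOp L g F).Countable := by
  have hfin1 : {i : Γ | (Sum.inl i : Γ ⊕ K) ∈ F}.Finite := by
    have : {i : Γ | (Sum.inl i : Γ ⊕ K) ∈ F} = Sum.inl ⁻¹' (F : Set (Γ ⊕ K)) := by ext; simp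
    rw [this]
    exact F.finite_toSet.preimage Sum.inl_injective.injOn
  have hfin2 : {c : K | (Sum.inr c : Γ ⊕ K) ∈ F}.Finite := by
    have : {c : K | (Sum.inr c : Γ ⊕ K) ∈ F} = Sum.inr ⁻¹' (F : Set (Γ ⊕ K)) := by ext; simp
    rw [this]
    exact F.finite_toSet.preimage Sum.inr_injective.injOn
  refine Set.Countable.union ?_ ?_
  · refine (countable_boxes hfin1.countable).biUnion (fun B _ => Set.Countable.union ?_ ?_)
    · exact (countable_admF F).biUnion (fun O _ => witSet_countable L g B O)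
    · refine Set.Countable.image (Set.Countable.union ?_ ?_) _
      · exact (Set.Subsingleton.countable (fun s hs t ht => IsLUB.unique hs ht))
      · exact (Set.Subsingleton.countable (fun s hs t ht => IsGLB.unique hs ht))
  · refine hfin2.countable.biUnion (fun c _ => Set.Countable.image (Set.Countable.union ?_ ?_) _)
    · exact (covBy_subsingleton c).countable
    · exact (covBy_subsingleton' c).countable

theorem isOpen_adm {P : Set K} {O : Set K} (h : Adm P O) : IsOpen O := by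
  rcases h with rfl | ⟨c, hc, rfl⟩ | ⟨c, hc, rfl⟩ | ⟨c, hc, d, hd, rfl⟩
  · exact isOpen_univ
  · exact isOpen_Ioi
  · exact isOpen_Iio
  · exact isOpen_Ioo

theorem good_of_finClosed {L : Set (Γ → ℝ)} {g : (Γ → ℝ) → K} (hg : ContinuousOn g L)
    (hd : L ⊆ closure (L ∩ {x | (Function.support x).Countable})) {M : Set (Γ ⊕ K)}
    (hM : FinClosed (wOp L g) M) :
    Good L g {i | (Sum.inl i : Γ ⊕ K) ∈ M} {c | (Sum.inr c : Γ ⊕ K) ∈ M} := by
  classical
  constructor
  · intro B O hB hO hx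
    obtain ⟨x, hxL, hxB, hxO⟩ := hx
    -- a witness in the Sigma part
    have hw : ∃ z ∈ L ∩ {x | (Function.support x).Countable}, z ∈ bs B ∧ g z ∈ O := by
      obtain ⟨B', hB', hB'O⟩ := exists_box_open hg hxL (isOpen_adm hO) hxO
      obtain ⟨z, ⟨hzB, hzB'⟩, hz⟩ := mem_closure_iff.1 (hd hxL) (bs B ∩ bs B')
        ((isOpen_bs B).inter (isOpen_bs B')) ⟨hxB, hB'⟩
      exact ⟨z, hz, hzB, hB'O z hz.1 hzB'⟩
    -- the finite set of parameters
    have hF : ∃ F : Finset (Γ ⊕ K), (F : Set (Γ ⊕ K)) ⊆ M ∧ (∀ t ∈ B, (Sum.inl t.1 : Γ ⊕ K) ∈ F) ∧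
        O ∈ admF F := by
      have hB0 : ((B.image (fun t => (Sum.inl t.1 : Γ ⊕ K)) : Finset (Γ ⊕ K)) : Set (Γ ⊕ K)) ⊆ M := by
        intro u hu
        simp only [Finset.coe_image, Set.mem_image, Finset.mem_coe] at hu
        obtain ⟨t, ht, rfl⟩ := hu
        exact hB t ht
      rcases hO with rfl | ⟨c, hc, rfl⟩ | ⟨c, hc, rfl⟩ | ⟨c, hc, d, hd, rfl⟩
      · exact ⟨_, hB0, fun t ht => Finset.mem_image_of_mem _ ht, Or.inl rfl⟩
      · refine ⟨insert (Sum.inr c) (B.image (fun t => (Sum.inl t.1 : Γ ⊕ K))), ?_,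
          fun t ht => Finset.mem_insert_of_mem (Finset.mem_image_of_mem _ ht),
          Or.inr (Or.inl ⟨c, Finset.mem_insert_self _ _, rfl⟩)⟩
        rw [Finset.coe_insert]
        exact Set.insert_subset hc hB0
      · refine ⟨insert (Sum.inr c) (B.image (fun t => (Sum.inl t.1 : Γ ⊕ K))), ?_,
          fun t ht => Finset.mem_insert_of_mem (Finset.mem_image_of_mem _ ht),
          Or.inr (Or.inr (Or.inl ⟨c, Finset.mem_insert_self _ _, rfl⟩))⟩
        rw [Finset.coe_insert]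
        exact Set.insert_subset hc hB0
      · refine ⟨insert (Sum.inr c) (insert (Sum.inr d) (B.image (fun t => (Sum.inl t.1 : Γ ⊕ K)))), ?_,
          fun t ht => Finset.mem_insert_of_mem (Finset.mem_insert_of_mem
            (Finset.mem_image_of_mem _ ht)),
          Or.inr (Or.inr (Or.inr ⟨c, Finset.mem_insert_self _ _, d,
            Finset.mem_insert_of_mem (Finset.mem_insert_self _ _), rfl⟩))⟩
        rw [Finset.coe_insert, Finset.coe_insert]
        exact Set.insert_subset hc (Set.insert_subset hd hB0)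
    obtain ⟨F, hFM, hFB, hFO⟩ := hF
    have hsub : witSet L g B O ⊆ M := by
      refine Set.Subset.trans ?_ (hM F hFM)
      intro u hu
      left
      simp only [Set.mem_iUnion]
      refine ⟨B, hFB, Or.inl ?_⟩
      simp only [Set.mem_iUnion]
      exact ⟨O, hFO, hu⟩
    exact witSet_spec hw hsub
  · intro B hB s hs
    have hB0 : ((B.image (fun t => (Sum.inl t.1 : Γ ⊕ K)) : Finset (Γ ⊕ K)) : Set (Γ ⊕ K)) ⊆ M := by
      intro u hu
      simp only [Finset.coe_image, Set.mem_image, Finset.mem_coe] at hu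
      obtain ⟨t, ht, rfl⟩ := hu
      exact hB t ht
    refine hM _ hB0 ?_
    left
    simp only [Set.mem_iUnion]
    exact ⟨B, fun t ht => Finset.mem_image_of_mem (fun t : Γ × ℚ × ℚ => (Sum.inl t.1 : Γ ⊕ K)) ht,
      Or.inr ⟨s, Or.inl hs, rfl⟩⟩
  · intro B hB s hs
    have hB0 : ((B.image (fun t => (Sum.inl t.1 : Γ ⊕ K)) : Finset (Γ ⊕ K)) : Set (Γ ⊕ K)) ⊆ M := by
      intro u hu
      simp only [Finset.coe_image, Set.mem_image, Finset.mem_coe] at hu
      obtain ⟨t, ht, rfl⟩ := hu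
      exact hB t ht
    refine hM _ hB0 ?_
    left
    simp only [Set.mem_iUnion]
    exact ⟨B, fun t ht => Finset.mem_image_of_mem (fun t : Γ × ℚ × ℚ => (Sum.inl t.1 : Γ ⊕ K)) ht,
      Or.inr ⟨s, Or.inr hs, rfl⟩⟩
  · intro c hc d hd
    have hc0 : (({Sum.inr c} : Finset (Γ ⊕ K)) : Set (Γ ⊕ K)) ⊆ M := by
      simpa using hc
    refine hM _ hc0 ?_
    right
    simp only [Set.mem_iUnion]
    refine ⟨c, by simp, ⟨d, ?_, rfl⟩⟩
    exact hd

end witnesses

section final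

variable {K : Type} [LinearOrder K] [TopologicalSpace K] [OrderTopology K] [CompactSpace K]
  {Γ : Type}

theorem main_theorem {L : Set (Γ → ℝ)} (hL : IsCompact L) {g : (Γ → ℝ) → K}
    (hg : ContinuousOn g L) (hsurj : ∀ q : K, ∃ x ∈ L, g x = q)
    (hd : L ⊆ closure (L ∩ {x | (Function.support x).Countable})) :
    Cardinal.mk {x : K | ¬ (𝓝 x).IsCountablyGenerated} ≤ Cardinal.aleph 1 := by
  classical
  obtain ⟨I, iLO, iWF, hIcard, hIc⟩ := exists_omega1_order
  have hbd : ∀ A : Set I, A.Countable → ∃ j, ∀ i ∈ A, i < j := fun A hA =>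
    exists_bound hIcard hIc hA
  let E : Set (Γ ⊕ K) → Set (Γ ⊕ K) := fun M =>
    Sum.inr '' (Ends L g {i | (Sum.inl i : Γ ⊕ K) ∈ M})
  have hE : ∀ M : Set (Γ ⊕ K), M.Countable → (E M).Countable := by
    intro M hM
    refine (countable_Ends L g ?_).image _
    exact hM.preimage_of_injOn Sum.inl_injective.injOn
  obtain ⟨M, hMc, hMcl, hMm⟩ := exists_chain hIc (wOp L g) (wOp_countable L g) E hE
  let S : I → Set Γ := fun i => {γ | (Sum.inl γ : Γ ⊕ K) ∈ M i}
  let P : I → Set K := fun i => {c | (Sum.inr c : Γ ⊕ K) ∈ M i}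
  have hgood : ∀ i, Good L g (S i) (P i) := fun i => good_of_finClosed hg hd (hMcl i)
  have hPc : ∀ i, (P i).Countable := fun i =>
    (hMc i).preimage_of_injOn Sum.inr_injective.injOn
  have hmono : ∀ i j, i < j → S i ⊆ S j ∧ P i ⊆ P j ∧ Ends L g (S i) ⊆ P j := by
    intro i j hij
    obtain ⟨h1, h2⟩ := hMm i j hij
    exact ⟨fun γ hγ => h1 hγ, fun c hc => h1 hc, fun c hc => h2 ⟨c, hc, rfl⟩⟩
  have hSm : ∀ i j, i ≤ j → S i ⊆ S j := by
    intro i j hij
    rcases hij.eq_or_lt with rfl | h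
    · exact Subset.rfl
    · exact (hmono i j h).1
  have hPm : ∀ i j, i ≤ j → P i ⊆ P j := by
    intro i j hij
    rcases hij.eq_or_lt with rfl | h
    · exact Subset.rfl
    · exact (hmono i j h).2.1
  have hmonod : ∀ i j, i < j → S i ⊆ S j ∧
      (OrderDual.ofDual ⁻¹' (P i) : Set Kᵒᵈ) ⊆ OrderDual.ofDual ⁻¹' (P j) ∧
      Ends (K := Kᵒᵈ) L (fun x => OrderDual.toDual (g x)) (S i) ⊆ OrderDual.ofDual ⁻¹' (P j) := by
    intro i j hij
    refine ⟨(hmono i j hij).1, fun c hc => (hmono i j hij).2.1 hc, fun c hc => ?_⟩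
    exact (hmono i j hij).2.2 (Ends_dual (OrderDual.ofDual c) hc)
  -- the key claim
  have key : ∀ p : K, (∀ i, p ∉ P i) → (𝓝 p).IsCountablyGenerated := by
    intro p hp
    by_contra hcg
    have i₀ : I := (hbd ∅ Set.countable_empty).choose
    -- bottom and top
    have huniv : g '' (L ∩ bs (∅ : Box Γ)) = univ := by
      rw [eq_univ_iff_forall]
      intro q
      obtain ⟨x, hxL, hx⟩ := hsurj q
      exact ⟨x, ⟨hxL, by intro t ht; simp at ht⟩, hx⟩
    have hnea : ∀ i, (P i ∩ Iio p).Nonempty := by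
      intro i
      obtain ⟨s, hs⟩ := exists_isGLB_of_compact (K := K) (s := univ) ⟨p, mem_univ _⟩
      have hsP : s ∈ P i := (hgood i).glb ∅ (by simp) s (by rw [huniv]; exact hs)
      exact ⟨s, hsP, lt_of_le_of_ne (hs.1 (mem_univ p)) (fun e => hp i (e ▸ hsP))⟩
    have hneb : ∀ i, (P i ∩ Ioi p).Nonempty := by
      intro i
      obtain ⟨s, hs⟩ := exists_isLUB_of_compact (K := K) (s := univ) ⟨p, mem_univ _⟩
      have hsP : s ∈ P i := (hgood i).lub ∅ (by simp) s (by rw [huniv]; exact hs)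
      exact ⟨s, hsP, lt_of_le_of_ne (hs.1 (mem_univ p)) (fun e => hp i (e ▸ hsP))⟩
    choose a ha using fun i => exists_isLUB_of_compact (hnea i)
    choose b hb using fun i => exists_isGLB_of_compact (hneb i)
    have hap : ∀ i, a i ≤ p := fun i => (ha i).2 (fun c hc => le_of_lt hc.2)
    have hbp : ∀ i, p ≤ b i := fun i => (hb i).2 (fun c hc => le_of_lt hc.2)
    have hab : ∀ i, a i < b i := by
      intro i
      rcases ((hap i).trans (hbp i)).eq_or_lt with h | h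
      · exfalso
        have h1 : a i = p := le_antisymm (hap i) (h ▸ hbp i)
        have h2 : b i = p := h ▸ h1
        exact hcg (countably_generated_of_limits (hPc i) (h1 ▸ ha i) (h2 ▸ hb i))
      · exact h
    by_cases hA : ∀ i, ∃ j, i < j ∧ a j ≠ a i
    · by_cases hB : ∀ i, ∃ j, i < j ∧ b j ≠ b i
      · exact two_sided_case hbd hL hg hsurj hgood hSm hPm hp ha hb hA hB i₀
      · push Not at hB
        obtain ⟨i₁, hi₁⟩ := hB
        exact one_sided_case (K := Kᵒᵈ) (p := OrderDual.toDual p) hbd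
          (fun s hs => exists_isLUB_of_compact (K := K) (s := OrderDual.toDual ⁻¹' s) hs)
          (g := fun x => OrderDual.toDual (g x)) hL hg
          (fun q => hsurj (OrderDual.ofDual q)) hd (fun i => (hgood i).dual) hmonod hp hneb hnea
          (a := fun i => OrderDual.toDual (b i)) (b := fun i => OrderDual.toDual (a i))
          hb ha hab hi₁
    · push Not at hA
      obtain ⟨i₁, hi₁⟩ := hA
      exact one_sided_case hbd (fun s hs => exists_isGLB_of_compact hs) hL hg hsurj hd hgood hmono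
        hp hnea hneb ha hb hab hi₁
  -- cardinality
  have hsub : {x : K | ¬ (𝓝 x).IsCountablyGenerated} ⊆ ⋃ i, P i := by
    intro p hpn
    by_contra hcon
    rw [Set.mem_iUnion, not_exists] at hcon
    exact hpn (key p hcon)
  refine (Cardinal.mk_le_mk_of_subset hsub).trans ?_
  refine (Cardinal.mk_iUnion_le _).trans ?_
  rw [hIcard]
  have h1 : (⨆ i, Cardinal.mk (P i)) ≤ Cardinal.aleph0 := by
    have : Nonempty I := ⟨(hbd ∅ Set.countable_empty).choose⟩
    exact ciSup_le (fun i => Cardinal.le_aleph0_iff_set_countable.2 (hPc i))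
  calc Cardinal.aleph 1 * (⨆ i, Cardinal.mk (P i)) ≤ Cardinal.aleph 1 * Cardinal.aleph 1 :=
        mul_le_mul' le_rfl (h1.trans (Cardinal.aleph0_le_aleph 1))
    _ = Cardinal.aleph 1 := Cardinal.mul_eq_self (Cardinal.aleph0_le_aleph 1)

end final

end Pool.Agent.Lib.MP_eb6644_gt
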